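import Pool.Agent.Helper13.R6.SheetA

/-!
Row MLE of the sheet R6: the main lemma.
-/

set_option autoImplicit false

namespace Pool.Helper13.R6

namespace Mle33

theorem rel_symm {D : ℕ} {x x' : A4} (h : Rel D x x') : Rel D x' x := by
  obtain ⟨κ, ⟨a, b, hab⟩, hd⟩ := h
  refine ⟨a, ⟨κ, b, by linarith⟩, fun i j => ?_⟩
  obtain ⟨m, hm⟩ := hd i j
  refine ⟨b * x i j - a * m, ?_⟩
  have h1 : x' i j = κ * x i j + D * m := by linarith
  rw [h1]
  have h2 : x i j = (a * κ + b * D) * x i j := by rw [hab, one_mul]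
  linear_combination h2

theorem nv_nonneg {d : Fin 4 → ℝ} (hd : ∀ i, 0 < d i) (v : V4) : 0 ≤ nv d v := by
  unfold nv
  refine le_trans ?_ (Finset.le_sup' (fun i => d i * |(v i : ℝ)|) (Finset.mem_univ (0 : Fin 4)))
  have := hd 0
  positivity

theorem GG_nonneg {e R X σ τ : ℝ} (he : 0 < e) (hR : 1 ≤ R) (hX : 0 < X) (hσ : 0 ≤ σ)
    (hτ : 0 ≤ τ) : 0 ≤ GG e R X σ τ := by
  unfold GG
  have hR0 : 0 < R := by linarith
  have h1 : 0 ≤ max e (τ / (6 * R)) := he.le.trans (le_max_left _ _)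
  positivity

end Mle33

theorem st_MLE (hRED : ST_RED) (hPR2 : ST_PR2) (hSUM : ST_SUM) (hALG : ST_ALG) : ST_MLE := by
  classical
  obtain ⟨C₁, hC₁, hPR2⟩ := hPR2
  obtain ⟨C₂, hC₂, hSUM⟩ := hSUM
  refine ⟨2 * C₁ * C₂, by positivity, ?_⟩
  intro d e e' R X L T T' W hX hL hT hXe hXe' hdiv S DD hNX hT' hDD
  have hX0 : 0 < X := by linarith
  have hdpos := W.pos
  set d' : Fin 4 → ℝ := fun i => (d i)⁻¹ with hd'
  have hd'pos : ∀ i, 0 < d' i := fun i => inv_pos.2 (hdpos i)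
  have hbase : ∀ x : A4, ∃ s t h g : V4, x ∈ S → Red d x s t ∧ Red d' (stx x) h g := by
    intro x
    by_cases hx : x ∈ S
    · have h0 := hNX x hx
      obtain ⟨s, t, h1⟩ := hRED d x hdpos h0.plu h0.prim
      obtain ⟨h, g, h2⟩ := hRED d' (stx x) hd'pos (hALG.1 x h0.plu)
        (hALG.2.2.2.2.2.1 x h0.plu h0.prim)
      exact ⟨s, t, h, g, fun _ => ⟨h1, h2⟩⟩
    · exact ⟨0, 0, 0, 0, fun h => absurd h hx⟩
  choose s t h g hbase using hbase
  set σ : A4 → ℝ := fun x => nv d (s x) with hσ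
  set G : A4 → ℝ := fun x => GG e R X (nv d (s x)) (nv d' (h x)) with hG
  have hG0 : ∀ x, 0 ≤ G x := fun x =>
    Mle33.GG_nonneg W.e0 W.R1 hX0 (Mle33.nv_nonneg hdpos _) (Mle33.nv_nonneg hd'pos _)
  set cnt : A4 → A4 → ℕ := fun x x' => ((DD x ∩ DD x').filter (fun D => Rel D x x')).card with hcnt
  have hsymm : ∀ x x', cnt x x' = cnt x' x := by
    intro x x'
    have : ((DD x ∩ DD x').filter (fun D => Rel D x x')) =
        ((DD x' ∩ DD x).filter (fun D => Rel D x' x)) := by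
      ext D
      rw [Finset.mem_filter, Finset.mem_filter, Finset.mem_inter, Finset.mem_inter]
      constructor
      · rintro ⟨⟨h1, h2⟩, h3⟩
        exact ⟨⟨h2, h1⟩, Mle33.rel_symm h3⟩
      · rintro ⟨⟨h1, h2⟩, h3⟩
        exact ⟨⟨h2, h1⟩, Mle33.rel_symm h3⟩
    simp only [hcnt]
    rw [this]
  set w : A4 → A4 → ℕ := fun x x' => if σ x' ≤ σ x then cnt x x' else 0 with hw
  have hle : ∀ x x', cnt x x' ≤ w x x' + w x' x := by
    intro x x'
    simp only [hw]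
    rcases le_total (σ x') (σ x) with h1 | h1
    · rw [if_pos h1]
      exact Nat.le_add_right _ _
    · rw [if_pos h1, ← hsymm x x']
      exact Nat.le_add_left _ _
  have hdouble : ∑ x ∈ S, ∑ x' ∈ S, cnt x x' ≤ 2 * ∑ x ∈ S, ∑ x' ∈ S, w x x' := by
    calc ∑ x ∈ S, ∑ x' ∈ S, cnt x x' ≤ ∑ x ∈ S, ∑ x' ∈ S, (w x x' + w x' x) :=
          Finset.sum_le_sum fun x _ => Finset.sum_le_sum fun x' _ => hle x x'
      _ = ∑ x ∈ S, ∑ x' ∈ S, w x x' + ∑ x ∈ S, ∑ x' ∈ S, w x' x := by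
          simp only [Finset.sum_add_distrib]
      _ = 2 * ∑ x ∈ S, ∑ x' ∈ S, w x x' := by
          rw [Finset.sum_comm (s := S) (t := S) (f := fun x x' => w x' x)]
          ring
  have hrow : ∀ x ∈ S, ((∑ x' ∈ S, w x x' : ℕ) : ℝ) ≤ T' * (C₁ * L * G x) := by
    intro x hx
    have h1 : ∑ x' ∈ S, w x x' ≤
        ∑ D ∈ DD x, (S.filter fun x' => σ x' ≤ σ x ∧ Rel D x x').card := by
      have h2 : ∀ x' ∈ S, w x x' ≤ ∑ D ∈ DD x, if σ x' ≤ σ x ∧ Rel D x x' then 1 else 0 := by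
        intro x' _
        simp only [hw]
        split_ifs with h3
        · have h4 : ∀ D ∈ DD x, (if σ x' ≤ σ x ∧ Rel D x x' then 1 else 0 : ℕ) =
              if Rel D x x' then 1 else 0 := by
            intro D _
            by_cases h5 : Rel D x x'
            · rw [if_pos ⟨h3, h5⟩, if_pos h5]
            · rw [if_neg (fun h6 => h5 h6.2), if_neg h5]
          rw [Finset.sum_congr rfl h4, ← Finset.card_filter]
          exact Finset.card_le_card (Finset.filter_subset_filter _ Finset.inter_subset_left)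
        · exact Nat.zero_le _
      refine (Finset.sum_le_sum h2).trans ?_
      rw [Finset.sum_comm]
      refine Finset.sum_le_sum fun D _ => ?_
      rw [← Finset.card_filter]
    have h2 : ∀ D ∈ DD x, (((S.filter fun x' => σ x' ≤ σ x ∧ Rel D x x').card : ℕ) : ℝ) ≤
        C₁ * L * G x := by
      intro D hD
      obtain ⟨hD0, hDX⟩ := hDD x hx D hD
      refine hPR2 d e e' R X L W hX0 hL hXe x (s x) (t x) (h x) (g x) D (hNX x hx) (hbase x hx).1
        (hbase x hx).2 hD0 hDX _ fun x' hx' => ?_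
      obtain ⟨hx'S, h3, h4⟩ := Finset.mem_filter.1 hx'
      exact ⟨hNX x' hx'S, h4, s x', t x', (hbase x' hx'S).1, h3⟩
    have h3 : ((∑ x' ∈ S, w x x' : ℕ) : ℝ) ≤
        ∑ D ∈ DD x, (((S.filter fun x' => σ x' ≤ σ x ∧ Rel D x x').card : ℕ) : ℝ) := by
      exact_mod_cast h1
    refine h3.trans ((Finset.sum_le_card_nsmul _ _ _ h2).trans ?_)
    rw [nsmul_eq_mul]
    have h4 : ((DD x).card : ℝ) ≤ T' := by exact_mod_cast hT' x hx
    exact mul_le_mul_of_nonneg_right h4 (mul_nonneg (mul_nonneg hC₁.le (Nat.cast_nonneg _)) (hG0 x))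
  have hS := hSUM d e e' R X L T W hX hL hT hXe hXe' hdiv S s t h g hNX
    (fun x hx => (hbase x hx).1) (fun x hx => (hbase x hx).2)
  have hfin : ((∑ x ∈ S, ∑ x' ∈ S, cnt x x' : ℕ) : ℝ) ≤
      2 * ∑ x ∈ S, (T' * (C₁ * L * G x)) := by
    have h1 : ((∑ x ∈ S, ∑ x' ∈ S, cnt x x' : ℕ) : ℝ) ≤
        ((2 * ∑ x ∈ S, ∑ x' ∈ S, w x x' : ℕ) : ℝ) := by exact_mod_cast hdouble
    refine h1.trans ?_
    have h2 : ((2 * ∑ x ∈ S, ∑ x' ∈ S, w x x' : ℕ) : ℝ) =
        2 * ∑ x ∈ S, ((∑ x' ∈ S, w x x' : ℕ) : ℝ) := by push_cast; rfl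
    rw [h2]
    exact mul_le_mul_of_nonneg_left (Finset.sum_le_sum hrow) (by norm_num)
  refine hfin.trans ?_
  have h5 : ∑ x ∈ S, ((T' : ℝ) * (C₁ * L * G x)) = T' * (C₁ * L) * ∑ x ∈ S, G x := by
    rw [Finset.mul_sum]
    exact Finset.sum_congr rfl fun x _ => by ring
  rw [h5]
  have h6 : (T' : ℝ) * (C₁ * L) * ∑ x ∈ S, G x ≤ T' * (C₁ * L) *
      (C₂ * L * X ^ 4 * R ^ 4 * T ^ 3) :=
    mul_le_mul_of_nonneg_left hS (by positivity)
  calc 2 * ((T' : ℝ) * (C₁ * L) * ∑ x ∈ S, G x) ≤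
        2 * (T' * (C₁ * L) * (C₂ * L * X ^ 4 * R ^ 4 * T ^ 3)) := by linarith
    _ = 2 * C₁ * C₂ * L ^ 2 * X ^ 4 * R ^ 4 * T ^ 3 * T' := by ring

end Pool.Helper13.R6
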