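import Pool.Agent.Helper13.R6.SheetA

/-!
Row SUM of the sheet R6: the sum of the bounds over the arrays, by dyadic classes.
-/

set_option autoImplicit false

namespace Pool.Helper13.R6

namespace Sum33

/-- dyadic decomposition -/
theorem dyadic (S : Finset A4) (σ F : A4 → ℝ) (e B : ℝ) (L : ℕ) (he : 0 < e)
    (h0 : ∀ x ∈ S, e ≤ σ x) (h1 : ∀ x ∈ S, σ x < e * 2 ^ L) (hB : 0 ≤ B)
    (hF : ∀ ρ, e ≤ ρ → ∀ S' ⊆ S, S'.Nonempty → (∀ x ∈ S', ρ ≤ σ x ∧ σ x < 2 * ρ) →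
      ∑ x ∈ S', F x ≤ B) : ∑ x ∈ S, F x ≤ L * B := by
  classical
  have hex : ∀ x ∈ S, ∃ j : ℕ, j < L ∧ e * 2 ^ j ≤ σ x ∧ σ x < e * 2 ^ (j + 1) := by
    intro x hx
    have hP : ∃ n : ℕ, σ x < e * 2 ^ n := ⟨L, h1 x hx⟩
    obtain ⟨n, hn, hmin⟩ : ∃ n : ℕ, σ x < e * 2 ^ n ∧ ∀ k < n, ¬ σ x < e * 2 ^ k :=
      ⟨Nat.find hP, Nat.find_spec hP, fun k hk => Nat.find_min hP hk⟩
    have hn0 : n ≠ 0 := by
      rintro rfl
      have := h0 x hx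
      rw [pow_zero, mul_one] at hn
      linarith
    obtain ⟨k, rfl⟩ := Nat.exists_eq_succ_of_ne_zero hn0
    refine ⟨k, ?_, not_lt.1 (hmin k (Nat.lt_succ_self k)), hn⟩
    by_contra hk
    exact hmin L (by omega) (h1 x hx)
  choose! j hj using hex
  have hmaps : ∀ x ∈ S, j x ∈ Finset.range L := fun x hx => Finset.mem_range.2 (hj x hx).1
  rw [← Finset.sum_fiberwise_of_maps_to hmaps F]
  have hone : ∀ k ∈ Finset.range L, ∑ x ∈ S with j x = k, F x ≤ B := by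
    intro k _
    rcases (S.filter fun x => j x = k).eq_empty_or_nonempty with h | h
    · rw [h, Finset.sum_empty]
      exact hB
    · refine hF (e * 2 ^ k) ?_ _ (Finset.filter_subset _ _) h fun x hx => ?_
      · have : (1 : ℝ) ≤ 2 ^ k := one_le_pow₀ (by norm_num)
        nlinarith
      · obtain ⟨hxS, hxk⟩ := Finset.mem_filter.1 hx
        obtain ⟨-, h2, h3⟩ := hj x hxS
        rw [hxk] at h2 h3
        refine ⟨h2, h3.trans_le (le_of_eq ?_)⟩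
        rw [pow_succ]
        ring
  refine (Finset.sum_le_card_nsmul _ _ _ hone).trans (le_of_eq ?_)
  rw [Finset.card_range, nsmul_eq_mul]

theorem stx_nz {x : A4} (h : ∀ i j, i ≠ j → x i j ≠ 0) : ∀ i j, i ≠ j → stx x i j ≠ 0 := by
  intro i j hij
  fin_cases i <;> fin_cases j <;>
    first
      | exact absurd rfl hij
      | exact h _ _ (by decide)

/-- facts for one array -/
theorem facts (hRIN : ST_RIN) {d : Fin 4 → ℝ} {X : ℝ} {x : A4} {s t : V4}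
    (hd : ∀ i, 0 < d i) (hp : PrimA x) (hx : nx d x ≤ X) (hz : ∀ i j, i ≠ j → x i j ≠ 0)
    (hr : Red d x s t) {e : ℝ}
    (he : ∃ i j, i ≠ j ∧ e ≤ d i ∧ e ≤ d j) :
    e ≤ nv d s ∧ 0 < nv d s ∧ nv d s ^ 2 ≤ 2 * X := by
  obtain ⟨h1, h2, h3, -, -, h4⟩ := hRIN d x s t hd hp hr
  obtain ⟨-, -, -, h5⟩ := h4 hz
  obtain ⟨i, j, hij, hi, hj⟩ := he
  refine ⟨h5 e i j hij hi hj, h1, ?_⟩
  nlinarith

end Sum33

theorem st_SUM (hN1 : ST_N1) (hN2 : ST_N2) (hALG : ST_ALG) (hRIN : ST_RIN) : ST_SUM := by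
  classical
  obtain ⟨C₁, hC₁, hN1⟩ := hN1
  obtain ⟨C₂, hC₂, hN2⟩ := hN2
  refine ⟨19 * C₂ + C₁, by positivity, ?_⟩
  intro d e e' R X L T W hX hL hT hXe hXe' hdiv S s t h g hNX hRed hRed'
  obtain ⟨aPlu, aInv, -, -, -, aPrim, aNx, -⟩ := hALG
  have hR := W.R1
  have he := W.e0
  have he' := W.e1
  have hX0 : 0 < X := by linarith
  have hR0 : 0 < R := by linarith
  set d' : Fin 4 → ℝ := fun i => (d i)⁻¹ with hd'
  have hdpos := W.pos
  have hd'pos : ∀ i, 0 < d' i := fun i => inv_pos.2 (hdpos i)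
  have hprod' : d' 0 * d' 1 * d' 2 * d' 3 = 1 := by
    simp only [hd']
    rw [← mul_inv, ← mul_inv, ← mul_inv, W.prod, inv_one]
  set σ : A4 → ℝ := fun x => nv d (s x) with hσ
  set τ : A4 → ℝ := fun x => nv d' (h x) with hτ
  -- pointwise facts
  have fσ : ∀ x ∈ S, e ≤ σ x ∧ 0 < σ x ∧ σ x ^ 2 ≤ 2 * X := fun x hx =>
    Sum33.facts hRIN hdpos (hNX x hx).prim (hNX x hx).hi (hNX x hx).nz (hRed x hx) W.he
  have hNX' : ∀ x ∈ S, NX d' X (stx x) := fun x hx => by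
    have h0 := hNX x hx
    have e1 := aNx d x hdpos W.prod h0.plu
    exact ⟨aPlu x h0.plu, aPrim x h0.plu h0.prim, Sum33.stx_nz h0.nz, by rw [e1]; exact h0.lo,
      by rw [e1]; exact h0.hi⟩
  have fτ : ∀ x ∈ S, e' ≤ τ x ∧ 0 < τ x ∧ τ x ^ 2 ≤ 2 * X := fun x hx =>
    Sum33.facts hRIN hd'pos (hNX' x hx).prim (hNX' x hx).hi (hNX' x hx).nz (hRed' x hx) W.he'
  have ltσ : ∀ x ∈ S, σ x < e * 2 ^ L := fun x hx =>
    lt_of_pow_lt_pow_left₀ 2 (by positivity) ((fσ x hx).2.2.trans_lt hXe)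
  have ltτ : ∀ x ∈ S, τ x < e' * 2 ^ L := fun x hx =>
    lt_of_pow_lt_pow_left₀ 2 (by positivity) ((fτ x hx).2.2.trans_lt hXe')
  -- counts
  have cσ : ∀ m ρ : ℝ, (∀ i, d i ≤ m) → 0 < ρ → ∀ S' ⊆ S, (∀ x ∈ S', ρ ≤ σ x ∧ σ x < 2 * ρ) →
      (S'.card : ℝ) ≤ C₂ * X ^ 3 * ρ * (ρ + m) := by
    intro m ρ hm hρ S' hS' hcl
    exact hN2 d X m ρ hdpos W.prod hX0 hm hρ S' fun x hx =>
      ⟨hNX x (hS' hx), s x, t x, hRed x (hS' hx), (hcl x hx).1, (hcl x hx).2⟩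
  have cτ : ∀ m ρ : ℝ, (∀ i, d' i ≤ m) → 0 < ρ → ∀ S' ⊆ S, (∀ x ∈ S', ρ ≤ τ x ∧ τ x < 2 * ρ) →
      (S'.card : ℝ) ≤ C₂ * X ^ 3 * ρ * (ρ + m) := by
    intro m ρ hm hρ S' hS' hcl
    have hinj : Set.InjOn stx (S' : Set A4) := by
      intro x hx y hy hxy
      have h1 := aInv x (hNX x (hS' (Finset.mem_coe.1 hx))).plu
      have h2 := aInv y (hNX y (hS' (Finset.mem_coe.1 hy))).plu
      rw [← h1, ← h2, hxy]
    rw [← Finset.card_image_of_injOn hinj]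
    refine hN2 d' X m ρ hd'pos hprod' hX0 hm hρ _ fun y hy => ?_
    obtain ⟨x, hx, rfl⟩ := Finset.mem_image.1 hy
    exact ⟨hNX' x (hS' hx), h x, g x, hRed' x (hS' hx), (hcl x hx).1, (hcl x hx).2⟩
  set K : ℝ := C₂ * R ^ 4 * X ^ 4 with hK
  have hK0 : 0 ≤ K := by positivity
  have hR24 : R ^ 2 ≤ R ^ 4 := pow_le_pow_right₀ hR (by norm_num)
  have hR34 : R ^ 3 ≤ R ^ 4 := pow_le_pow_right₀ hR (by norm_num)
  have hR12 : R ≤ R ^ 2 := by nlinarith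
  -- the second term
  have t2 : ∑ x ∈ S, R ^ 2 * X / σ x ^ 2 ≤ L * (2 * K) := by
    refine Sum33.dyadic S σ _ e (2 * K) L he (fun x hx => (fσ x hx).1) ltσ (by positivity) ?_
    intro ρ hρ S' hS' _ hcl
    have hρ0 : 0 < ρ := he.trans_le hρ
    have hpt : ∀ x ∈ S', R ^ 2 * X / σ x ^ 2 ≤ R ^ 2 * X / ρ ^ 2 := fun x hx =>
      div_le_div_of_nonneg_left (by positivity) (by positivity)
        (pow_le_pow_left₀ hρ0.le (hcl x hx).1 2)
    have hc := cσ (R ^ 2 * e) ρ W.h1 hρ0 S' hS' hcl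
    refine (Finset.sum_le_card_nsmul _ _ _ hpt).trans ?_
    rw [nsmul_eq_mul]
    have h1 : (S'.card : ℝ) * (R ^ 2 * X / ρ ^ 2) ≤
        C₂ * X ^ 3 * ρ * (ρ + R ^ 2 * e) * (R ^ 2 * X / ρ ^ 2) :=
      mul_le_mul_of_nonneg_right hc (by positivity)
    refine h1.trans ?_
    have h2 : C₂ * X ^ 3 * ρ * (ρ + R ^ 2 * e) * (R ^ 2 * X / ρ ^ 2) =
        C₂ * R ^ 2 * X ^ 4 * ((ρ + R ^ 2 * e) / ρ) := by
      field_simp
    have h3 : (ρ + R ^ 2 * e) / ρ ≤ 2 * R ^ 2 := by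
      rw [div_le_iff₀ hρ0]
      have h4 : R ^ 2 * e ≤ R ^ 2 * ρ := mul_le_mul_of_nonneg_left hρ (by positivity)
      have h5 : ρ ≤ R ^ 2 * ρ := by
        have : (1 : ℝ) ≤ R ^ 2 := one_le_pow₀ hR
        nlinarith
      linarith
    rw [h2, hK]
    calc C₂ * R ^ 2 * X ^ 4 * ((ρ + R ^ 2 * e) / ρ) ≤ C₂ * R ^ 2 * X ^ 4 * (2 * R ^ 2) :=
          mul_le_mul_of_nonneg_left h3 (by positivity)
      _ = 2 * (C₂ * R ^ 4 * X ^ 4) := by ring
  -- the third term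
  have t3 : ∑ x ∈ S, R ^ 2 * X / τ x ^ 2 ≤ L * (2 * K) := by
    refine Sum33.dyadic S τ _ e' (2 * K) L he' (fun x hx => (fτ x hx).1) ltτ (by positivity) ?_
    intro ρ hρ S' hS' _ hcl
    have hρ0 : 0 < ρ := he'.trans_le hρ
    have hpt : ∀ x ∈ S', R ^ 2 * X / τ x ^ 2 ≤ R ^ 2 * X / ρ ^ 2 := fun x hx =>
      div_le_div_of_nonneg_left (by positivity) (by positivity)
        (pow_le_pow_left₀ hρ0.le (hcl x hx).1 2)
    have hc := cτ (R ^ 2 * e') ρ W.h2 hρ0 S' hS' hcl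
    refine (Finset.sum_le_card_nsmul _ _ _ hpt).trans ?_
    rw [nsmul_eq_mul]
    have h1 : (S'.card : ℝ) * (R ^ 2 * X / ρ ^ 2) ≤
        C₂ * X ^ 3 * ρ * (ρ + R ^ 2 * e') * (R ^ 2 * X / ρ ^ 2) :=
      mul_le_mul_of_nonneg_right hc (by positivity)
    refine h1.trans ?_
    have h2 : C₂ * X ^ 3 * ρ * (ρ + R ^ 2 * e') * (R ^ 2 * X / ρ ^ 2) =
        C₂ * R ^ 2 * X ^ 4 * ((ρ + R ^ 2 * e') / ρ) := by
      field_simp
    have h3 : (ρ + R ^ 2 * e') / ρ ≤ 2 * R ^ 2 := by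
      rw [div_le_iff₀ hρ0]
      have h4 : R ^ 2 * e' ≤ R ^ 2 * ρ := mul_le_mul_of_nonneg_left hρ (by positivity)
      have h5 : ρ ≤ R ^ 2 * ρ := by
        have : (1 : ℝ) ≤ R ^ 2 := one_le_pow₀ hR
        nlinarith
      linarith
    rw [h2, hK]
    calc C₂ * R ^ 2 * X ^ 4 * ((ρ + R ^ 2 * e') / ρ) ≤ C₂ * R ^ 2 * X ^ 4 * (2 * R ^ 2) :=
          mul_le_mul_of_nonneg_left h3 (by positivity)
      _ = 2 * (C₂ * R ^ 4 * X ^ 4) := by ring
  -- the fourth term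
  have t4 : ∑ x ∈ S, R ^ 3 * σ x / τ x ≤ L * (4 * K) := by
    refine Sum33.dyadic S τ _ e' (4 * K) L he' (fun x hx => (fτ x hx).1) ltτ (by positivity) ?_
    intro ρ hρ S' hS' hne hcl
    have hρ0 : 0 < ρ := he'.trans_le hρ
    set q : ℝ := Real.sqrt (2 * X) with hq
    have hq0 : 0 ≤ q := Real.sqrt_nonneg _
    have hq2 : q ^ 2 = 2 * X := Real.sq_sqrt (by positivity)
    have hq1 : 1 ≤ q := by
      rw [hq, Real.one_le_sqrt]
      linarith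
    have hqX : q ≤ 2 * X := by nlinarith
    obtain ⟨y, hy⟩ := hne
    have hρq : ρ ≤ q := by
      refine le_of_pow_le_pow_left₀ (two_ne_zero) hq0 ?_
      rw [hq2]
      exact (pow_le_pow_left₀ hρ0.le (hcl y hy).1 2).trans (fτ y (hS' hy)).2.2
    have hpt : ∀ x ∈ S', R ^ 3 * σ x / τ x ≤ R ^ 3 * q / ρ := fun x hx => by
      have h1 : σ x ≤ q := by
        refine le_of_pow_le_pow_left₀ (two_ne_zero) hq0 ?_
        rw [hq2]
        exact (fσ x (hS' hx)).2.2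
      exact div_le_div₀ (by positivity) (mul_le_mul_of_nonneg_left h1 (by positivity)) hρ0
        (hcl x hx).1
    have hc := cτ R ρ W.h3 hρ0 S' hS' hcl
    refine (Finset.sum_le_card_nsmul _ _ _ hpt).trans ?_
    rw [nsmul_eq_mul]
    have h1 : (S'.card : ℝ) * (R ^ 3 * q / ρ) ≤ C₂ * X ^ 3 * ρ * (ρ + R) * (R ^ 3 * q / ρ) :=
      mul_le_mul_of_nonneg_right hc (by positivity)
    refine h1.trans ?_
    have h2 : C₂ * X ^ 3 * ρ * (ρ + R) * (R ^ 3 * q / ρ) = C₂ * X ^ 3 * R ^ 3 * (q * (ρ + R)) := by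
      field_simp
    have h3 : q * (ρ + R) ≤ 4 * R * X := by
      have h4 : q * ρ ≤ 2 * X := by nlinarith
      have h5 : q * R ≤ 2 * X * R := mul_le_mul_of_nonneg_right hqX hR0.le
      nlinarith
    rw [h2, hK]
    calc C₂ * X ^ 3 * R ^ 3 * (q * (ρ + R)) ≤ C₂ * X ^ 3 * R ^ 3 * (4 * R * X) :=
          mul_le_mul_of_nonneg_left h3 (by positivity)
      _ = 4 * (C₂ * R ^ 4 * X ^ 4) := by ring
  -- the fifth term
  have t5 : ∑ x ∈ S, R ^ 3 * X / (τ x * max e (τ x / (6 * R))) ≤ L * (7 * K) := by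
    refine Sum33.dyadic S τ _ e' (7 * K) L he' (fun x hx => (fτ x hx).1) ltτ (by positivity) ?_
    intro ρ hρ S' hS' _ hcl
    have hρ0 : 0 < ρ := he'.trans_le hρ
    set M : ℝ := max e (ρ / (6 * R)) with hM
    have hM0 : 0 < M := lt_max_of_lt_left he
    have hMe : e ≤ M := le_max_left _ _
    have hMρ : ρ ≤ 6 * R * M := by
      have := le_max_right e (ρ / (6 * R))
      rw [← hM, div_le_iff₀ (by positivity)] at this
      linarith
    have hpt : ∀ x ∈ S', R ^ 3 * X / (τ x * max e (τ x / (6 * R))) ≤ R ^ 3 * X / (ρ * M) :=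
      fun x hx => by
        have h1 : M ≤ max e (τ x / (6 * R)) :=
          max_le_max le_rfl (div_le_div_of_nonneg_right (hcl x hx).1 (by positivity))
        exact div_le_div_of_nonneg_left (by positivity) (by positivity)
          (mul_le_mul (hcl x hx).1 h1 hM0.le (hρ0.le.trans (hcl x hx).1))
    have hc := cτ (R * e) ρ W.h4 hρ0 S' hS' hcl
    refine (Finset.sum_le_card_nsmul _ _ _ hpt).trans ?_
    rw [nsmul_eq_mul]
    have h1 : (S'.card : ℝ) * (R ^ 3 * X / (ρ * M)) ≤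
        C₂ * X ^ 3 * ρ * (ρ + R * e) * (R ^ 3 * X / (ρ * M)) :=
      mul_le_mul_of_nonneg_right hc (by positivity)
    refine h1.trans ?_
    have h2 : C₂ * X ^ 3 * ρ * (ρ + R * e) * (R ^ 3 * X / (ρ * M)) =
        C₂ * X ^ 4 * R ^ 3 * ((ρ + R * e) / M) := by
      field_simp
    have h3 : (ρ + R * e) / M ≤ 7 * R := by
      rw [div_le_iff₀ hM0]
      have h4 : R * e ≤ R * M := mul_le_mul_of_nonneg_left hMe hR0.le
      linarith
    rw [h2, hK]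
    calc C₂ * X ^ 4 * R ^ 3 * ((ρ + R * e) / M) ≤ C₂ * X ^ 4 * R ^ 3 * (7 * R) :=
          mul_le_mul_of_nonneg_left h3 (by positivity)
      _ = 7 * (C₂ * R ^ 4 * X ^ 4) := by ring
  -- the last term
  have hcard : (S.card : ℝ) ≤ C₁ * X ^ 4 * T ^ 3 := hN1 d X T hdpos W.prod hX hdiv S hNX
  have hTr : (1 : ℝ) ≤ (T : ℝ) ^ 3 := one_le_pow₀ (by exact_mod_cast hT)
  have hLr : (1 : ℝ) ≤ (L : ℝ) := by exact_mod_cast hL
  -- the first term
  have hpt : ∀ x ∈ S, GG e R X (σ x) (τ x) ≤ 2 * (R ^ 2 * X / σ x ^ 2) + 2 * (R ^ 2 * X / τ x ^ 2) +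
      R ^ 3 * σ x / τ x + R ^ 3 * X / (τ x * max e (τ x / (6 * R))) + R ^ 4 := by
    intro x hx
    have h1 := (fσ x hx).2.1
    have h2 := (fτ x hx).2.1
    have h3 : R * X / (σ x * τ x) ≤ R ^ 2 * X / σ x ^ 2 + R ^ 2 * X / τ x ^ 2 := by
      have h4 : 1 / (σ x * τ x) ≤ 1 / σ x ^ 2 + 1 / τ x ^ 2 := by
        have e1 : 1 / (σ x * τ x) = 1 / σ x * (1 / τ x) := by
          field_simp
        have e2 : 1 / σ x ^ 2 = (1 / σ x) ^ 2 := by rw [div_pow, one_pow]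
        have e3 : 1 / τ x ^ 2 = (1 / τ x) ^ 2 := by rw [div_pow, one_pow]
        rw [e1, e2, e3]
        nlinarith [sq_nonneg (1 / σ x - 1 / τ x), sq_nonneg (1 / σ x), sq_nonneg (1 / τ x)]
      calc R * X / (σ x * τ x) = R * X * (1 / (σ x * τ x)) := by ring
        _ ≤ R ^ 2 * X * (1 / σ x ^ 2 + 1 / τ x ^ 2) :=
            mul_le_mul (mul_le_mul_of_nonneg_right hR12 hX0.le) h4 (by positivity) (by positivity)
        _ = _ := by ring
    unfold GG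
    linarith
  refine (Finset.sum_le_sum hpt).trans ?_
  simp only [Finset.sum_add_distrib, ← Finset.mul_sum, Finset.sum_const, nsmul_eq_mul]
  have hA : (L : ℝ) * (19 * K) ≤ 19 * C₂ * L * X ^ 4 * R ^ 4 * T ^ 3 := by
    have h1 : (L : ℝ) * (19 * K) = 19 * C₂ * L * X ^ 4 * R ^ 4 * 1 := by rw [hK]; ring
    rw [h1]
    exact mul_le_mul_of_nonneg_left hTr (by positivity)
  have hB : (S.card : ℝ) * R ^ 4 ≤ C₁ * L * X ^ 4 * R ^ 4 * T ^ 3 := by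
    calc (S.card : ℝ) * R ^ 4 ≤ C₁ * X ^ 4 * T ^ 3 * R ^ 4 :=
          mul_le_mul_of_nonneg_right hcard (by positivity)
      _ = (C₁ * X ^ 4 * R ^ 4 * T ^ 3) * 1 := by ring
      _ ≤ (C₁ * X ^ 4 * R ^ 4 * T ^ 3) * L := mul_le_mul_of_nonneg_left hLr (by positivity)
      _ = _ := by ring
  have hC : (19 * C₂ + C₁) * L * X ^ 4 * R ^ 4 * T ^ 3 =
      19 * C₂ * L * X ^ 4 * R ^ 4 * T ^ 3 + C₁ * L * X ^ 4 * R ^ 4 * T ^ 3 := by ring
  rw [hC]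
  have hD : (L : ℝ) * (19 * K) = 2 * (L * (2 * K)) + 2 * (L * (2 * K)) + L * (4 * K) +
      L * (7 * K) := by ring
  linarith

end Pool.Helper13.R6
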